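import Pool.Agent.ShearComposite.Defs
import Pool.Agent.ShearComposite.Transfer
import Pool.Agent.ShearComposite.Assembly
import Pool.Agent.ShearComposite.Device
import Pool.Agent.ShearComposite3.Main3

/-!
# Porous isotropic composites near the corner `(0, μ)`

For every isotropic elastic phase with moduli `κ, μ > 0` in the plane or in space the pair `(0, μ)`
lies in the closure of the set of pairs `(κ_*, μ_*)` of effective moduli of isotropic periodic
composites of this phase and void.
-/

open Pool.Agent.ShearComposite

namespace Pool.Agent.Results.MP_d2e993_an.ShearCorner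

theorem result (d : ℕ) (hd : d = 2 ∨ d = 3) (κ μ : ℝ) (hκ : 0 < κ) (hμ : 0 < μ) :
    ((0 : ℝ), μ) ∈ closure (attainable d κ μ) := by
  rcases hd with rfl | rfl
  · exact transfer κ μ hκ hμ fun ε hε => assembly κ μ hκ hμ device ε hε
  · exact D3.main3 hκ hμ

end Pool.Agent.Results.MP_d2e993_an.ShearCorner
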